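import Pool.Agent.H14.TOW.TargetsM
import Pool.Agent.H18.HIT.PN

set_option autoImplicit false

open MvPolynomial
open Pool.Agent.H12.ZD (pmap)
open Pool.Agent.H18.HIT Pool.Agent.H18.HX Pool.Agent.H18.VP Pool.Agent.H18.VZ Pool.Agent.H14.TOW

namespace Pool.Agent.H97.TOW

theorem aeval_mul_of_hom {k E : Type} [Field k] [Field E] [Algebra k E] {L : ℕ} {q : Po L k}
    {t : ℕ} (hq : q.IsHomogeneous t) (a : E) (z : Fin L → E) :
    aeval (fun i => a * z i) q = a ^ t * aeval z q := by
  rw [aeval_def, aeval_def, eval₂_eq', eval₂_eq', Finset.mul_sum]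
  apply Finset.sum_congr rfl
  intro m hm
  have h1 : ∏ i, (a * z i) ^ m i = a ^ t * ∏ i, z i ^ m i := by
    rw [Finset.prod_congr rfl fun i _ => mul_pow a (z i) (m i), Finset.prod_mul_distrib,
      Finset.prod_pow_eq_pow_sum]
    congr 2
    have h2 := hq (mem_support_iff.mp hm)
    rw [Finsupp.weight_apply, Finsupp.sum_fintype _ _ (fun i => by simp)] at h2
    simpa using h2
  rw [h1]
  ring

theorem pf_MIT : T_MIT := by
  intro k E _ _ _ σ n r d m P F y h hm
  have key : ∀ m : ℕ, aeval y (it F m (Fin.succ 0)) ≠ 0 ∧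
      ∀ i, aeval y (it F m i) = aeval y (it F m (Fin.succ 0)) * (σ ^ m) (y i) := by
    intro m
    induction m with
    | zero =>
      have h0 : ∀ i, aeval y (it F 0 i) = y i := by
        intro i
        show aeval y (X i) = y i
        exact aeval_X _ _
      refine ⟨by rw [h0, h.y1]; exact one_ne_zero, fun i => ?_⟩
      rw [h0, h0, h.y1, one_mul]
      rfl
    | succ m ih =>
      obtain ⟨h1, h2⟩ := ih
      set c := aeval y (it F m (Fin.succ 0)) with hc
      have h3 : ∀ i, aeval y (it F (m + 1) i) = c ^ d * (σ ^ m) (aeval y (F (Fin.succ 0))) *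
          (σ ^ (m + 1)) (y i) := by
        intro i
        have e1 : it F (m + 1) i = aeval (it F m) (F i) := by
          unfold it
          rw [Function.iterate_succ_apply']
          rfl
        have e2 : aeval y (aeval (it F m) (F i)) = aeval (fun j => aeval y (it F m j)) (F i) := by
          rw [← AlgHom.comp_apply, comp_aeval]
        have e3 : (fun j => aeval y (it F m j)) = fun j => c * (σ ^ m) (y j) := by
          funext j
          exact h2 j
        have e4 : aeval (fun j => (σ ^ m) (y j)) (F i) = (σ ^ m) (aeval y (F i)) := by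
          have := comp_aeval (R := k) y (σ ^ m)
          rw [← AlgHom.comp_apply, this]
        rw [e1, e2, e3, aeval_mul_of_hom (h.hom i), e4, h.map i, map_mul, pow_succ]
        rw [AlgHom.mul_apply]
        ring
      have h4 : aeval y (it F (m + 1) (Fin.succ 0)) = c ^ d * (σ ^ m) (aeval y (F (Fin.succ 0))) := by
        rw [h3, h.y1, map_one, mul_one]
      refine ⟨?_, fun i => ?_⟩
      · rw [h4]
        exact mul_ne_zero (pow_ne_zero _ h1) fun h5 => h.ne ((map_eq_zero _).1 h5)
      · rw [h3, h4]
  have hd : d ≤ d ^ m := Nat.le_self_pow (by omega) d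
  exact { hyp := h.hyp, le := h.le.trans hd, two := h.two.trans hd, hom := it_hom h.hom m,
          y1 := h.y1, ker := h.ker, gen := h.gen, map := (key m).2, ne := (key m).1 }

end Pool.Agent.H97.TOW
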