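import Pool.Agent.H14.TOW.TargetsM

set_option autoImplicit false

open MvPolynomial
open Pool.Agent.H12.ZD (pmap)
open Pool.Agent.H18.HIT Pool.Agent.H18.HX Pool.Agent.H18.VP Pool.Agent.H18.VZ Pool.Agent.H14.TOW

namespace Pool.Agent.H97.TOW

theorem fse_up {N : ℕ} {k : Type} [Field k] (g : Po N k) :
    finSuccEquiv k N (up g) = Polynomial.C g := by
  have h : ((finSuccEquiv k N).toAlgHom.comp (rename Fin.succ)) =
      (Algebra.ofId (Po N k) (Polynomial (Po N k))).restrictScalars k := by
    apply MvPolynomial.algHom_ext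
    intro i
    simp [finSuccEquiv_X_succ, Algebra.ofId_apply]
  have h2 := congrArg (fun f => f g) h
  exact h2

theorem pf_NRM : T_NRM := by
  classical
  intro N r k _ P D hP hD
  set p := finSuccEquiv k N P with hp
  set q := finSuccEquiv k N D with hq
  have hm : p.Monic := hP.mon
  have hpr : Prime p := by
    have := hP.irr.prime
    exact (MulEquiv.prime_iff (finSuccEquiv k N).toMulEquiv).2 this
  haveI := AdjoinRoot.isDomain_of_prime hpr
  haveI := hm.finite_adjoinRoot
  have hs : AdjoinRoot.mk p q ≠ 0 := by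
    intro h
    rw [AdjoinRoot.mk_eq_zero] at h
    exact hD ((map_dvd_iff (finSuccEquiv k N)).1 h)
  have hint : IsIntegral (Po N k) (AdjoinRoot.mk p q) := Algebra.IsIntegral.isIntegral _
  obtain ⟨g, hg0, b, hb⟩ := hint.isAlgebraic.exists_nonzero_dvd (mem_nonZeroDivisors_of_ne_zero hs)
  obtain ⟨b', rfl⟩ := AdjoinRoot.mk_surjective b
  refine ⟨g, (finSuccEquiv k N).symm b', hg0, ?_⟩
  rw [← map_dvd_iff (finSuccEquiv k N), map_sub, map_mul, fse_up, AlgEquiv.apply_symm_apply]
  rw [← AdjoinRoot.mk_eq_zero, map_sub, map_mul, AdjoinRoot.mk_C]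
  rw [AdjoinRoot.algebraMap_eq] at hb
  rw [hb, sub_self]

end Pool.Agent.H97.TOW
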